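import Pool.Agent.H52.CD.Lng
import Pool.Agent.H10.CD.Exc

/-!
# [CD] The case of a chain
-/

set_option autoImplicit false

namespace Pool.Agent.H52.CD

open Finset Pool.Agent.H52.DT Pool.Agent.H10.CD

variable {B : Type} {M : CoxeterMatrix B} {T : Finset B} {n : ℕ} {p : ℕ → B}

theorem chain_equiv (hp : Chn M T n p) (hT : ∀ b ∈ T, ∃ x, x < n ∧ p x = b) :
    ∃ e : Fin n ≃ T, ∀ x, (e x : B) = p x :=
  ⟨Equiv.ofBijective (fun x => ⟨p x, hp.mem x x.2⟩) ⟨fun x y h => Fin.ext
    (hp.eq x.2 y.2 (congrArg (fun z : T => (z : B)) h)), fun b => by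
    obtain ⟨x, hx, hxb⟩ := hT b b.2
    exact ⟨⟨x, hx⟩, Subtype.ext hxb⟩⟩, fun _ => rfl⟩

theorem chain_three (h : Hy M T) (hp : Chn M T n p) (hT : ∀ b ∈ T, ∃ x, x < n ∧ p x = b) : 3 ≤ n := by
  obtain ⟨e, _⟩ := chain_equiv hp hT
  have h1 := Fintype.card_congr e
  rw [Fintype.card_fin, Fintype.card_coe] at h1
  rw [h1]
  exact h.card

theorem ty_of_chain (hp : Chn M T n p) (hT : ∀ b ∈ T, ∃ x, x < n ∧ p x = b) {L : ℕ → ℕ → ℕ}
    (hl : ∀ x y, x < y → y < n → M (p x) (p y) = L x y) : IsTy M T n L := by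
  obtain ⟨e, he⟩ := chain_equiv hp hT
  exact ⟨e, fun x y hxy => by
    rw [he, he]
    exact hl x y hxy y.2⟩

theorem end_path3 (h : Hy M T) (hp : Chn M T n p) (hT : ∀ b ∈ T, ∃ x, x < n ∧ p x = b)
    (hi : ∀ x y, x + 1 < y → y < n → M (p x) (p y) = 2) (h3 : ∀ x, x + 1 < n → M (p x) (p (x + 1)) = 3) : IsCl M T := by
  obtain ⟨e, he⟩ := ty_of_chain hp hT (L := Cl.A.lab n) fun x y hxy hy => by
    change _ = if x + 1 = y then 3 else 2
    split_ifs with h1
    · subst h1
      exact h3 x hy
    · exact hi x y (by omega) hy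
  exact ⟨.A, n, e, chain_three h hp hT, he⟩

/-- the large label is at most five -/
theorem le_five (h : Hy M T) (hp : Chn M T n p) (hn : 3 ≤ n) {k : ℕ} (hk : k + 1 < n) (h4 : 4 ≤ M (p k) (p (k + 1))) :
    M (p k) (p (k + 1)) ≤ 5 := by
  by_cases h1 : k + 2 < n
  · have h2 := h.tri (hp.mem k (by omega)) (hp.mem (k + 1) (by omega)) (hp.mem (k + 1 + 1) h1)
      (hp.ne (by omega) (by omega) (by omega)) (hp.ne (by omega) (by omega) (by omega))
      (hp.ne (by omega) (by omega) (by omega)) (by omega) (hp.adj (k + 1) h1)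
    omega
  · have e1 : k - 1 + 1 = k := by omega
    have h3 := hp.adj (k - 1) (by omega)
    rw [e1] at h3
    have h2 := h.tri (hp.mem (k - 1) (by omega)) (hp.mem k (by omega)) (hp.mem (k + 1) hk)
      (hp.ne (by omega) (by omega) (by omega)) (hp.ne (by omega) (by omega) (by omega))
      (hp.ne (by omega) (by omega) (by omega)) h3 (by omega)
    omega

/-- a large label at the beginning -/
theorem path0 (h : Hy M T) (hp : Chn M T n p) (hT : ∀ b ∈ T, ∃ x, x < n ∧ p x = b)
    (hi : ∀ x y, x + 1 < y → y < n → M (p x) (p y) = 2) (h4 : 4 ≤ M (p 0) (p 1))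
    (h3 : ∀ x, x + 1 < n → x ≠ 0 → M (p x) (p (x + 1)) = 3) : IsCl M T ∨ IsEx M T := by
  have hn := chain_three h hp hT
  have h5 := le_five h hp hn (k := 0) (by omega) h4
  have hl : ∀ m, M (p 0) (p 1) = m → ∀ x y, x < y → y < n →
      M (p x) (p y) = if x + 1 = y then (if x = 0 then m else 3) else 2 := by
    intro m hm x y hxy hy
    split_ifs with h1 h2
    · subst h1
      subst h2
      exact hm
    · subst h1
      exact h3 x hy h2
    · exact hi x y (by omega) hy
  rcases Nat.eq_or_lt_of_le h4 with h6 | h6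
  · obtain ⟨e, he⟩ := ty_of_chain hp hT (L := Cl.B.lab n) (hl 4 h6.symm)
    exact Or.inl ⟨.B, n, e, hn, he⟩
  have h7 : M (p 0) (p 1) = 5 := by
    have : M (p 0) (p (0 + 1)) ≤ 5 := h5
    simp only [zero_add] at this
    omega
  by_cases n3 : n = 3
  · subst n3
    exact Or.inr ⟨.H3, ty_of_chain hp hT (L := Ex.H3.lab) (hl 5 h7)⟩
  by_cases n4 : n = 4
  · subst n4
    exact Or.inr ⟨.H4, ty_of_chain hp hT (L := Ex.H4.lab) (hl 5 h7)⟩
  exfalso
  obtain ⟨v, hv, x, hx, hlt⟩ := mXb
  refine cmp_lt (f := p) h.toHyp hv (emb_of h (fun x hx => hp.mem x (by omega)) (fun x y hxy hy => hp.inj x y hxy (by omega))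
    fun x y hxy hy => ?_) hx hlt
  right
  rw [hl 5 h7 x y hxy (by omega)]
  exact le_refl _

/-- a large label in the interior -/
theorem path1 (h : Hy M T) (hp : Chn M T n p) (hT : ∀ b ∈ T, ∃ x, x < n ∧ p x = b)
    (hi : ∀ x y, x + 1 < y → y < n → M (p x) (p y) = 2) {k : ℕ} (hk1 : 1 ≤ k) (hk2 : k + 2 < n)
    (h4 : 4 ≤ M (p k) (p (k + 1))) (h3 : ∀ x, x + 1 < n → x ≠ k → M (p x) (p (x + 1)) = 3) : IsCl M T ∨ IsEx M T := by
  have h5 := le_five h hp (by omega) (k := k) (by omega) h4
  rcases Nat.eq_or_lt_of_le h4 with h6 | h6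
  · right
    by_cases n4 : n = 4
    · subst n4
      have e1 : k = 1 := by omega
      subst e1
      refine ⟨.F4, ty_of_chain hp hT (L := Ex.F4.lab) fun x y hxy hy => ?_⟩
      change _ = if x + 1 = y then (if x = 1 then 4 else 3) else 2
      split_ifs with h7 h8
      · subst h7
        subst h8
        exact h6.symm
      · subst h7
        exact h3 x hy h8
      · exact hi x y (by omega) hy
    · obtain ⟨v, hv⟩ := mF4
      suffices h0 : IsTy M T 5 Ex.tF4.lab from ⟨.tF4, h0⟩
      by_cases hk3 : k + 3 < n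
      · refine cmp (f := fun x => p (k - 1 + x)) h.toHyp hv (emb_of h (fun x hx => hp.mem _ (by omega))
          (fun x y hxy hy => hp.inj _ _ (by omega) (by omega)) fun x y hxy hy => ?_) (by decide)
        change (if x + 1 = y then (if x = 1 then 4 else 3) else 2) = 2 ∨
          (if x + 1 = y then (if x = 1 then 4 else 3) else 2) ≤ M (p (k - 1 + x)) (p (k - 1 + y))
        split_ifs with h7 h8
        · right
          subst h7
          subst h8
          have e1 : k - 1 + 1 = k := by omega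
          have e2 : k - 1 + (1 + 1) = k + 1 := by omega
          rw [e1, e2]
          exact h4
        · right
          subst h7
          exact hp.adj (k - 1 + x) (by omega)
        · exact Or.inl rfl
      · refine cmp (f := fun x => p (k + 2 - x)) h.toHyp hv (emb_of h (fun x hx => hp.mem _ (by omega))
          (fun x y hxy hy => hp.ne (by omega) (by omega) (by omega)) fun x y hxy hy => ?_) (by decide)
        change (if x + 1 = y then (if x = 1 then 4 else 3) else 2) = 2 ∨
          (if x + 1 = y then (if x = 1 then 4 else 3) else 2) ≤ M (p (k + 2 - x)) (p (k + 2 - y))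
        split_ifs with h7 h8
        · right
          subst h7
          subst h8
          have e1 : k + 2 - 1 = k + 1 := by omega
          have e2 : k + 2 - (1 + 1) = k := by omega
          rw [e1, e2, M.symmetric]
          exact h4
        · right
          subst h7
          have h9 := hp.adj (k + 2 - (x + 1)) (by omega)
          have e1 : k + 2 - (x + 1) + 1 = k + 2 - x := by omega
          rw [e1] at h9
          rw [M.symmetric]
          exact h9
        · exact Or.inl rfl
  · exfalso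
    obtain ⟨v, hv, x, hx, hlt⟩ := mXa
    refine cmp_lt (f := fun x => p (k - 1 + x)) h.toHyp hv (emb_of h (fun x hx => hp.mem _ (by omega))
      (fun x y hxy hy => hp.inj _ _ (by omega) (by omega)) fun x y hxy hy => ?_) hx hlt
    change (if x + 1 = y then (if x = 1 then 5 else 3) else 2) = 2 ∨
      (if x + 1 = y then (if x = 1 then 5 else 3) else 2) ≤ M (p (k - 1 + x)) (p (k - 1 + y))
    split_ifs with h7 h8
    · right
      subst h7
      subst h8
      have e1 : k - 1 + 1 = k := by omega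
      have e2 : k - 1 + (1 + 1) = k + 1 := by omega
      rw [e1, e2]
      exact h6
    · right
      subst h7
      exact hp.adj (k - 1 + x) (by omega)
    · exact Or.inl rfl

theorem end_path (h : Hy M T) (hp : Chn M T n p) (hT : ∀ b ∈ T, ∃ x, x < n ∧ p x = b)
    (hi : ∀ x y, x + 1 < y → y < n → M (p x) (p y) = 2) {k : ℕ} (hk : k + 1 < n)
    (h4 : 4 ≤ M (p k) (p (k + 1))) (h3 : ∀ x, x + 1 < n → x ≠ k → M (p x) (p (x + 1)) = 3) : IsCl M T ∨ IsEx M T := by
  by_cases hk0 : k = 0
  · subst hk0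
    exact path0 h hp hT hi h4 h3
  by_cases hk2 : k + 2 < n
  · exact path1 h hp hT hi (by omega) hk2 h4 h3
  refine path0 h hp.rev (fun b hb => ?_) (fun x y hxy hy => ?_) ?_ fun x hx hx0 => ?_
  · obtain ⟨x, hx, hxb⟩ := hT b hb
    refine ⟨n - 1 - x, by omega, ?_⟩
    have e1 : n - 1 - (n - 1 - x) = x := by omega
    simp only [e1]
    exact hxb
  · rw [M.symmetric]
    exact hi _ _ (by omega) (by omega)
  · have e1 : n - 1 - 0 = k + 1 := by omega
    have e2 : n - 1 - 1 = k := by omega
    simp only [e1, e2]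
    rw [M.symmetric]
    exact h4
  · have h5 := h3 (n - 1 - (x + 1)) (by omega) (by omega)
    have e1 : n - 1 - (x + 1) + 1 = n - 1 - x := by omega
    rw [e1] at h5
    rw [M.symmetric]
    exact h5

end Pool.Agent.H52.CD
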