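import Pool.Agent.H52.CD.Max
import Pool.Agent.H52.CD.Path

/-!
# [CD] The classification, from the models and the case of a star
-/

set_option autoImplicit false

namespace Pool.Agent.H52.CD

open Finset Pool.Agent.H52.DT Pool.Agent.H10.CD

variable {B : Type} {M : CoxeterMatrix B} {T : Finset B}

/-- the assumptions, from the form and the spherical triples -/
theorem hy_of (hcard : 3 ≤ T.card) (hirr : ∀ L ⊆ T, L.Nonempty → L ≠ T → ∃ i ∈ L, ∃ j ∈ T, j ∉ L ∧ M i j ≠ 2)
    (hs : ∀ i ∈ T, ∀ j ∈ T, ∀ k ∈ T, i ≠ j → j ≠ k → i ≠ k → (1 : ℝ) < 1 / M i j + 1 / M j k + 1 / M i k)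
    (hp : ∀ x : B → ℝ, 0 ≤ ∑ i ∈ T, ∑ j ∈ T, x i * x j * -Real.cos (Real.pi / M i j)) : Hy M T where
  irr := hirr
  psd := hp
  card := hcard
  sph := hs
  two i hi j hj hij := by
    classical
    have h1 := M.off_diagonal i j hij
    have h0 : M i j ≠ 0 := by
      intro h0
      -- a third element
      obtain ⟨k, hk, hki, hkj⟩ : ∃ k ∈ T, k ≠ i ∧ k ≠ j := by
        by_contra hcon
        push Not at hcon
        have h2 : T ⊆ {i, j} := by
          intro k hk
          by_cases h3 : k = i
          · rw [h3]
            exact mem_insert_self _ _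
          · rw [hcon k hk h3]
            exact mem_insert_of_mem (mem_singleton_self _)
        have h3 := card_le_card h2
        have h4 : ({i, j} : Finset B).card ≤ 2 := card_le_two
        omega
      have h2 := hs i hi j hj k hk hij hkj.symm hki.symm
      have half : ∀ m : ℕ, m ≠ 1 → (1 : ℝ) / m ≤ 1 / 2 := by
        intro m hm
        rcases Nat.eq_zero_or_pos m with h5 | h5
        · rw [h5]
          norm_num
        · have h6 : (2 : ℝ) ≤ m := by exact_mod_cast (by omega : 2 ≤ m)
          exact one_div_le_one_div_of_le (by norm_num) h6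
      have h3 := half _ (M.off_diagonal j k hkj.symm)
      have h4 := half _ (M.off_diagonal i k hki.symm)
      rw [h0] at h2
      norm_num at h2 h3 h4
      linarith
    omega

end Pool.Agent.H52.CD
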