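import Pool.Agent.H52.CD.Def

/-!
# [CD] Comparison with a model
-/

set_option autoImplicit false

namespace Pool.Agent.H52.CD

open Finset

theorem psd_null {B : Type} (A : B → B → ℝ) (T : Finset B) (hsym : ∀ i j, A i j = A j i)
    (hp : ∀ x : B → ℝ, 0 ≤ ∑ i ∈ T, ∑ j ∈ T, x i * x j * A i j) (u : B → ℝ)
    (hu : ∑ i ∈ T, ∑ j ∈ T, u i * u j * A i j ≤ 0) {z : B} (hz : z ∈ T) (h1 : A z z = 1) :
    ∑ j ∈ T, u j * A z j = 0 := by
  classical
  set b := ∑ j ∈ T, u j * A z j with hb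
  have key := hp fun i => u i + (-b) * (if i = z then 1 else 0)
  have hexp : ∑ i ∈ T, ∑ j ∈ T, (u i + (-b) * (if i = z then 1 else 0)) * (u j + (-b) * (if j = z then 1 else 0)) * A i j =
      ∑ i ∈ T, ∑ j ∈ T, u i * u j * A i j + (-b) * b + (-b) * b + (-b) * (-b) := by
    have e1 : ∀ i j, (u i + (-b) * (if i = z then 1 else 0)) * (u j + (-b) * (if j = z then 1 else 0)) * A i j =
        u i * u j * A i j + (-b) * ((if i = z then 1 else 0) * (u j * A i j)) +
          (-b) * ((if j = z then 1 else 0) * (u i * A i j)) +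
          (-b) * (-b) * ((if i = z then 1 else 0) * ((if j = z then 1 else 0) * A i j)) := fun i j => by ring
    simp only [e1, sum_add_distrib, ← mul_sum]
    have e2 : ∑ i ∈ T, (if i = z then (1 : ℝ) else 0) * ∑ j ∈ T, u j * A i j = b := by
      simp only [ite_mul, one_mul, zero_mul, sum_ite_eq', if_pos hz]
      exact hb.symm
    have e3 : ∑ i ∈ T, ∑ j ∈ T, (if j = z then (1 : ℝ) else 0) * (u i * A i j) = b := by
      simp only [ite_mul, one_mul, zero_mul, sum_ite_eq', if_pos hz]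
      rw [hb]
      exact sum_congr rfl fun i _ => by rw [hsym]
    have e4 : ∑ i ∈ T, (if i = z then (1 : ℝ) else 0) * ∑ j ∈ T, (if j = z then (1 : ℝ) else 0) * A i j = 1 := by
      simp only [ite_mul, one_mul, zero_mul, sum_ite_eq', if_pos hz]
      exact h1
    rw [e2, e3, e4, mul_one]
  rw [hexp] at key
  have h2 : b * b ≤ 0 := by linarith
  exact mul_self_eq_zero.1 (le_antisymm h2 (mul_self_nonneg b))

/-- the cosine -/
noncomputable def cs (m : ℕ) : ℝ := Real.cos (Real.pi / m)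

theorem cs_two : cs 2 = 0 := by
  rw [cs]
  norm_num

theorem cs_one : cs 1 = -1 := by
  rw [cs]
  norm_num

theorem pi_div_le {m : ℕ} (hm : 2 ≤ m) : Real.pi / m ≤ Real.pi / 2 := by
  have h1 : (2 : ℝ) ≤ m := by exact_mod_cast hm
  exact div_le_div_of_nonneg_left Real.pi_pos.le (by norm_num) h1

theorem cs_nonneg {m : ℕ} (hm : 2 ≤ m) : 0 ≤ cs m := by
  have h1 := pi_div_le hm
  have h2 : 0 ≤ Real.pi / m := by positivity
  exact Real.cos_nonneg_of_neg_pi_div_two_le_of_le (by linarith [Real.pi_pos]) h1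

theorem cs_mono {m k : ℕ} (hm : 2 ≤ m) (hmk : m ≤ k) : cs m ≤ cs k := by
  have h0 : (0 : ℝ) < m := by exact_mod_cast (by omega : 0 < m)
  have h1 : (m : ℝ) ≤ k := by exact_mod_cast hmk
  refine Real.cos_le_cos_of_nonneg_of_le_pi (by positivity) ?_ ?_
  · have := pi_div_le hm
    linarith [Real.pi_pos]
  · exact div_le_div_of_nonneg_left Real.pi_pos.le h0 h1

theorem cs_inj {m k : ℕ} (hm : 2 ≤ m) (hk : 2 ≤ k) (h : cs m = cs k) : m = k := by
  have h0 : (0 : ℝ) < m := by exact_mod_cast (by omega : 0 < m)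
  have h0' : (0 : ℝ) < k := by exact_mod_cast (by omega : 0 < k)
  have h1 := pi_div_le hm
  have h1' := pi_div_le hk
  have hpi := Real.pi_pos
  have h2 : Real.pi / m = Real.pi / k :=
    Real.injOn_cos ⟨by positivity, by linarith⟩ ⟨by positivity, by linarith⟩ h
  rw [div_eq_div_iff h0.ne' h0'.ne'] at h2
  have h3 : (k : ℝ) = m := mul_left_cancel₀ hpi.ne' h2
  exact_mod_cast h3.symm

section

variable {B : Type} {M : CoxeterMatrix B} {T : Finset B}

/-- the assumptions: irreducible, positive semidefinite, all labels at least two -/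
structure Hyp (M : CoxeterMatrix B) (T : Finset B) : Prop where
  irr : ∀ L ⊆ T, L.Nonempty → L ≠ T → ∃ i ∈ L, ∃ j ∈ T, j ∉ L ∧ M i j ≠ 2
  psd : ∀ x : B → ℝ, 0 ≤ ∑ i ∈ T, ∑ j ∈ T, x i * x j * -Real.cos (Real.pi / M i j)
  two : ∀ i ∈ T, ∀ j ∈ T, i ≠ j → 2 ≤ M i j

/-- the embedding of a model -/
structure Emb (M : CoxeterMatrix B) (T : Finset B) (n : ℕ) (L : ℕ → ℕ → ℕ) (f : ℕ → B) : Prop where
  mem : ∀ x, x < n → f x ∈ T
  inj : ∀ x y, x < y → y < n → f x ≠ f y
  lab : ∀ x y, x < y → y < n → L x y ≤ M (f x) (f y)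

theorem Emb.injOn {n : ℕ} {L : ℕ → ℕ → ℕ} {f : ℕ → B} (h : Emb M T n L f) : Set.InjOn f (Finset.range n : Set ℕ) := by
  intro x hx y hy hxy
  have hx' : x < n := by simpa using hx
  have hy' : y < n := by simpa using hy
  rcases lt_trichotomy x y with h1 | h1 | h1
  · exact (h.inj x y h1 hy' hxy).elim
  · exact h1
  · exact (h.inj y x h1 hx' hxy.symm).elim

theorem sy_le {n : ℕ} {L : ℕ → ℕ → ℕ} {f : ℕ → B} (h : Emb M T n L f) {x y : ℕ} (hx : x < n) (hy : y < n) (hxy : y ≠ x) :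
    sy L x y ≤ M (f x) (f y) := by
  rw [sy]
  split_ifs with h1
  · exact h.lab x y h1 hy
  · rw [M.symmetric]
    exact h.lab y x (by omega) hx

theorem sy_two {n : ℕ} {L : ℕ → ℕ → ℕ} {v : ℕ → ℝ} (h : Mdl n L v) {x y : ℕ} (hx : x < n) (hy : y < n) (hxy : y ≠ x) :
    2 ≤ sy L x y := by
  rw [sy]
  split_ifs with h1
  · exact h.two x y h1 hy
  · exact h.two y x (by omega) hx

/-- the main step: the vector is a null vector -/
theorem null {n : ℕ} {L : ℕ → ℕ → ℕ} {v : ℕ → ℝ} {f : ℕ → B} (hM : Hyp M T) (hm : Mdl n L v) (he : Emb M T n L f) {z : B}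
    (hz : z ∈ T) : ∑ y ∈ range n, v y * -cs (M z (f y)) = 0 := by
  classical
  let S : Finset B := (range n).image f
  have hS : S ⊆ T := by
    intro b hb
    obtain ⟨x, hx, rfl⟩ := mem_image.1 hb
    exact he.mem x (mem_range.1 hx)
  -- the vector on `T`
  obtain ⟨u, hu1, hu2⟩ : ∃ u : B → ℝ, (∀ x, x < n → u (f x) = v x) ∧ ∀ b, b ∉ S → u b = 0 := by
    refine ⟨fun b => ∑ x ∈ range n, if f x = b then v x else 0, fun x hx => ?_, fun b hb => ?_⟩
    · have h1 : ∀ y ∈ range n, (if f y = f x then v y else 0) = if y = x then v y else 0 := by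
        intro y hy
        by_cases h2 : y = x
        · rw [h2, if_pos rfl, if_pos rfl]
        · have h3 : f y ≠ f x := fun h3 => h2 (he.injOn (by simpa using hy) (by simpa using hx) h3)
          rw [if_neg h2, if_neg h3]
      change (∑ y ∈ range n, if f y = f x then v y else 0) = v x
      rw [sum_congr rfl h1, sum_ite_eq', if_pos (mem_range.2 hx)]
    · refine sum_eq_zero fun x hx => ?_
      rw [if_neg]
      rintro rfl
      exact hb (mem_image_of_mem f hx)
  have hsum : ∀ g : B → ℝ, (∀ b, b ∉ S → g b = 0) → ∑ b ∈ T, g b = ∑ x ∈ range n, g (f x) := by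
    intro g hg
    rw [← sum_subset hS fun b _ hb => hg b hb, sum_image he.injOn]
  have hrow : ∀ i : B, ∑ j ∈ T, u j * -cs (M i j) = ∑ y ∈ range n, v y * -cs (M i (f y)) := by
    intro i
    rw [hsum _ fun b hb => by rw [hu2 b hb, zero_mul]]
    exact sum_congr rfl fun y hy => by rw [hu1 y (mem_range.1 hy)]
  have hq : ∑ i ∈ T, ∑ j ∈ T, u i * u j * -cs (M i j) ≤ 0 := by
    have h1 : ∀ i, ∑ j ∈ T, u i * u j * -cs (M i j) = u i * ∑ j ∈ T, u j * -cs (M i j) := by
      intro i
      rw [mul_sum]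
      exact sum_congr rfl fun j _ => by ring
    simp only [h1]
    rw [hsum _ fun b hb => by rw [hu2 b hb, zero_mul]]
    refine sum_nonpos fun x hx => ?_
    have hx' := mem_range.1 hx
    rw [hu1 x hx', hrow]
    refine mul_nonpos_of_nonneg_of_nonpos (hm.pos x hx').le ?_
    rw [← add_sum_erase _ _ hx, M.diagonal, cs_one]
    have h2 : ∑ y ∈ (range n).erase x, v y * -cs (M (f x) (f y)) ≤ -∑ y ∈ (range n).erase x, cs (sy L x y) * v y := by
      rw [← sum_neg_distrib]
      refine sum_le_sum fun y hy => ?_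
      obtain ⟨h3, h4⟩ := mem_erase.1 hy
      have h4' := mem_range.1 h4
      have h5 := cs_mono (sy_two hm hx' h4' h3) (sy_le he hx' h4' h3)
      have h6 := (hm.pos y h4').le
      nlinarith
    have h3 := hm.le x hx'
    have h4 : ∑ y ∈ (range n).erase x, Real.cos (Real.pi / sy L x y) * v y = ∑ y ∈ (range n).erase x, cs (sy L x y) * v y := rfl
    rw [h4] at h3
    linarith
  have h1 := psd_null (fun i j => -cs (M i j)) T (fun i j => by rw [M.symmetric]) hM.psd u hq hz (by
    rw [M.diagonal, cs_one, neg_neg])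
  rwa [hrow] at h1

/-- the inequalities of the model are equalities -/
theorem cmp_eq {n : ℕ} {L : ℕ → ℕ → ℕ} {v : ℕ → ℝ} {f : ℕ → B} (hM : Hyp M T) (hm : Mdl n L v) (he : Emb M T n L f)
    {x : ℕ} (hx : x < n) : v x = ∑ y ∈ (range n).erase x, cs (sy L x y) * v y ∧
      ∀ y, y < n → y ≠ x → M (f x) (f y) = sy L x y := by
  have h1 := null hM hm he (he.mem x hx)
  rw [← add_sum_erase _ _ (mem_range.2 hx), M.diagonal, cs_one] at h1
  have h2 : ∀ y ∈ (range n).erase x, cs (sy L x y) * v y ≤ cs (M (f x) (f y)) * v y := by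
    intro y hy
    obtain ⟨h3, h4⟩ := mem_erase.1 hy
    have h4' := mem_range.1 h4
    exact mul_le_mul_of_nonneg_right (cs_mono (sy_two hm hx h4' h3) (sy_le he hx h4' h3)) (hm.pos y h4').le
  have h3 : v x ≤ ∑ y ∈ (range n).erase x, cs (sy L x y) * v y := hm.le x hx
  have h4 : ∑ y ∈ (range n).erase x, cs (M (f x) (f y)) * v y = v x := by
    have h5 : ∑ y ∈ (range n).erase x, v y * -cs (M (f x) (f y)) = -∑ y ∈ (range n).erase x, cs (M (f x) (f y)) * v y := by
      rw [← sum_neg_distrib]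
      exact sum_congr rfl fun y _ => by ring
    rw [h5] at h1
    linarith
  have h5 := sum_le_sum h2
  have h6 : ∑ y ∈ (range n).erase x, cs (sy L x y) * v y = ∑ y ∈ (range n).erase x, cs (M (f x) (f y)) * v y :=
    le_antisymm h5 (by rw [h4]; exact h3)
  refine ⟨by rw [h6, h4], fun y hy hyx => ?_⟩
  have h7 := (sum_eq_sum_iff_of_le h2).1 h6 y (mem_erase.2 ⟨hyx, mem_range.2 hy⟩)
  have h8 := mul_right_cancel₀ (hm.pos y hy).ne' h7
  have h9 := sy_two hm hx hy hyx
  exact (cs_inj h9 (h9.trans (sy_le he hx hy hyx)) h8).symm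

/-- a model with a strict inequality does not occur -/
theorem cmp_lt {n : ℕ} {L : ℕ → ℕ → ℕ} {v : ℕ → ℝ} {f : ℕ → B} (hM : Hyp M T) (hm : Mdl n L v) (he : Emb M T n L f)
    {x : ℕ} (hx : x < n) (h : v x < ∑ y ∈ (range n).erase x, Real.cos (Real.pi / sy L x y) * v y) : False :=
  absurd (cmp_eq hM hm he hx).1 (ne_of_lt h)

/-- THEOREM CMP -/
theorem cmp {n : ℕ} {L : ℕ → ℕ → ℕ} {v : ℕ → ℝ} {f : ℕ → B} (hM : Hyp M T) (hm : Mdl n L v) (he : Emb M T n L f)
    (hn : 0 < n) : IsTy M T n L := by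
  classical
  have hall : (range n).image f = T := by
    by_contra hne
    obtain ⟨i, hi, j, hj, hjS, hij⟩ := hM.irr ((range n).image f) (fun b hb => by
      obtain ⟨x, hx, rfl⟩ := mem_image.1 hb
      exact he.mem x (mem_range.1 hx)) ⟨f 0, mem_image_of_mem f (mem_range.2 hn)⟩ hne
    obtain ⟨x, hx, rfl⟩ := mem_image.1 hi
    have h1 := null hM hm he hj
    have hx' := mem_range.1 hx
    have hne' : ∀ y, y < n → j ≠ f y := fun y hy h => hjS (h ▸ mem_image_of_mem f (mem_range.2 hy))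
    have h2 : ∀ y ∈ range n, v y * -cs (M j (f y)) ≤ 0 := by
      intro y hy
      have hy' := mem_range.1 hy
      have h3 := cs_nonneg (hM.two j hj (f y) (he.mem y hy') (hne' y hy'))
      have h4 := hm.pos y hy'
      nlinarith
    have h3 := (sum_eq_zero_iff_of_nonpos h2).1 h1 x hx
    have h4 : cs (M j (f x)) = 0 := by
      rcases mul_eq_zero.1 h3 with h4 | h4
      · exact absurd h4 (hm.pos x hx').ne'
      · linarith
    apply hij
    rw [M.symmetric]
    exact cs_inj (hM.two j hj (f x) (he.mem x hx') (hne' x hx')) le_rfl (h4.trans cs_two.symm)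
  have hmem : ∀ x : Fin n, f x ∈ T := fun x => he.mem x x.2
  let e : Fin n ≃ T := Equiv.ofBijective (fun x => ⟨f x, hmem x⟩) ⟨fun x y h => by
    have h1 : f x = f y := congrArg (fun z : T => (z : B)) h
    exact Fin.ext (he.injOn (by simp) (by simp) h1), fun b => by
    have h1 : (b : B) ∈ (range n).image f := by rw [hall]; exact b.2
    obtain ⟨x, hx, hxb⟩ := mem_image.1 h1
    exact ⟨⟨x, mem_range.1 hx⟩, Subtype.ext hxb⟩⟩
  refine ⟨e, fun x y hxy => ?_⟩
  have h1 := (cmp_eq hM hm he x.2).2 y y.2 (by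
    have : x.val < y.val := hxy
    omega)
  change M (f x) (f y) = _
  rw [h1, sy, if_pos (show x.val < y.val from hxy)]

end

end Pool.Agent.H52.CD
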