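import Pool.Agent.H52.DT.Cla

/-!
# [CD] Classification of the positive semidefinite diagrams: definitions

`sy L` is the symmetric extension of a label function `L x y`, `x < y`. `Mdl n L v`: the diagram with the vertices `0, …, n - 1`
and the labels `L` has the positive vector `v` with `v x ≤ ∑ cos (π / L x y) v y` for all `x` (so that the value of the form at `v`
is not positive). `IsTy M T n L`: the set `T` is the diagram with `n` vertices and labels `L`. `Ex` are the exceptional diagrams.
-/

set_option autoImplicit false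

namespace Pool.Agent.H52.CD

/-- the symmetric extension -/
def sy (L : ℕ → ℕ → ℕ) (x y : ℕ) : ℕ := if x < y then L x y else L y x

/-- models with a vector whose value is not positive -/
structure Mdl (n : ℕ) (L : ℕ → ℕ → ℕ) (v : ℕ → ℝ) : Prop where
  two : ∀ x y, x < y → y < n → 2 ≤ L x y
  pos : ∀ x, x < n → 0 < v x
  le : ∀ x, x < n → v x ≤ ∑ y ∈ (Finset.range n).erase x, Real.cos (Real.pi / sy L x y) * v y

/-- the set `T` is the diagram with `n` vertices and labels `L` -/
def IsTy {B : Type} (M : CoxeterMatrix B) (T : Finset B) (n : ℕ) (L : ℕ → ℕ → ℕ) : Prop :=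
  ∃ e : Fin n ≃ T, ∀ x y : Fin n, x < y → M (e x) (e y) = L x y

/-- the exceptional diagrams -/
inductive Ex : Type
  | E6 | E7 | E8 | F4 | H3 | H4 | tE6 | tE7 | tE8 | tF4

/-- the number of vertices -/
def Ex.num : Ex → ℕ
  | .E6 => 6
  | .E7 => 7
  | .E8 => 8
  | .F4 => 4
  | .H3 => 3
  | .H4 => 4
  | .tE6 => 7
  | .tE7 => 8
  | .tE8 => 9
  | .tF4 => 5

/-- the labels of the path `1, 2, …` with the vertex `0` joined with the vertex `r` -/
def lbr (r x y : ℕ) : ℕ := if x = 0 then (if y = r then 3 else 2) else if x + 1 = y then 3 else 2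

/-- The label of the vertices `x < y`. `E6, E7, E8`, affine `E8`: the path `1, …, n - 1` and the vertex `0` joined with `3`; affine
`E7`: the path `1, …, 7` and the vertex `0` joined with `4`; affine `E6`: the path `2, …, 6` and the path `0, 1` with `1` joined
with `4`; `F4`, affine `F4`: a path, the label of `1` and `2` is `4`; `H3`, `H4`: a path, the label of `0` and `1` is `5`. All other
labels of joined vertices are `3`. -/
def Ex.lab : Ex → ℕ → ℕ → ℕ
  | .E6, x, y => lbr 3 x y
  | .E7, x, y => lbr 3 x y
  | .E8, x, y => lbr 3 x y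
  | .tE8, x, y => lbr 3 x y
  | .tE7, x, y => lbr 4 x y
  | .tE6, x, y => if x = 0 then (if y = 1 then 3 else 2) else if x = 1 then (if y = 4 then 3 else 2)
      else if x + 1 = y then 3 else 2
  | .F4, x, y => if x + 1 = y then (if x = 1 then 4 else 3) else 2
  | .tF4, x, y => if x + 1 = y then (if x = 1 then 4 else 3) else 2
  | .H3, x, y => if x + 1 = y then (if x = 0 then 5 else 3) else 2
  | .H4, x, y => if x + 1 = y then (if x = 0 then 5 else 3) else 2

/-- the set `T` is an exceptional diagram -/
def IsEx {B : Type} (M : CoxeterMatrix B) (T : Finset B) : Prop := ∃ c : Ex, IsTy M T c.num c.lab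

end Pool.Agent.H52.CD
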