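import Pool.Agent.H52.CD.Cls
import Pool.Agent.H98.CD.Fam
import Pool.Agent.H10.CD.Star
import Pool.Agent.H52.DT.Aff3

/-!
# [CD] The classification and the theorem for finite and affine types

A set of generators with at least three elements which is irreducible, has spherical triples and a positive semidefinite form is one
of the classical diagrams or one of the ten exceptional diagrams.
-/

set_option autoImplicit false

namespace Pool.Agent.H52.CD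

open Finset Pool.Agent.H52.DT Pool.Agent.H10.CD

variable {B : Type} {M : CoxeterMatrix B} {T : Finset B}

theorem mods : Mods where
  mA n hn := ⟨_, Pool.Agent.H98.CD.mA n hn⟩
  mB := Pool.Agent.H98.CD.mB
  mC := Pool.Agent.H98.CD.mC
  mD := Pool.Agent.H98.CD.mD

/-- THE CLASSIFICATION -/
theorem classify (hcard : 3 ≤ T.card) (hirr : ∀ L ⊆ T, L.Nonempty → L ≠ T → ∃ i ∈ L, ∃ j ∈ T, j ∉ L ∧ M i j ≠ 2)
    (hs : ∀ i ∈ T, ∀ j ∈ T, ∀ k ∈ T, i ≠ j → j ≠ k → i ≠ k → (1 : ℝ) < 1 / M i j + 1 / M j k + 1 / M i k)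
    (hp : ∀ x : B → ℝ, 0 ≤ ∑ i ∈ T, ∑ j ∈ T, x i * x j * -Real.cos (Real.pi / M i j)) : IsCl M T ∨ IsEx M T := by
  have h := hy_of hcard hirr hs hp
  exact classify_of mods mE6 h
    { path3 := fun n p hp hT hi h3 => end_path3 h hp hT hi h3
      path := fun n p hp hT hi k hk h4 h3 => end_path h hp hT hi hk h4 h3
      star := fun n p hp z hz hzp hT hi h3 k hk1 hk2 hzk hz2 => end_star h hp hz hzp hT hi h3 hk1 hk2 hzk hz2 }

open Pool.Agent.H52.PAG Pool.Agent.H98.FJ Pool.Agent.H54.CX Pool.Agent.H98.DF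
open Pool.Agent.H54.AR (rst)

theorem aff_mem4 {C : (G : Type) → [Group G] → Prop} (hC : Inherits C) (hE : Extension C) (hF : FinByZ C)
    (hcat : Cat2 C) (hGL : ∀ n : ℕ, C (GL (Fin n) ℤ)) (B : Type) (M : CoxeterMatrix B)
    (hM : ∀ K : Finset B, (∀ i ∈ K, ∀ j ∈ K, M i j ≠ 0) →
      (∀ L ⊆ K, L.Nonempty → L ≠ K → ∃ i ∈ L, ∃ j ∈ K, j ∉ L ∧ M i j ≠ 2) →
      C (Art (rst M K)) ∨ ∀ T ⊆ K, 3 ≤ T.card →
        (∀ L ⊆ T, L.Nonempty → L ≠ T → ∃ i ∈ L, ∃ j ∈ T, j ∉ L ∧ M i j ≠ 2) →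
        (∀ i ∈ T, ∀ j ∈ T, ∀ k ∈ T, i ≠ j → j ≠ k → i ≠ k → (1 : ℝ) < 1 / M i j + 1 / M j k + 1 / M i k) →
        (∀ x : B → ℝ, 0 ≤ ∑ i ∈ T, ∑ j ∈ T, x i * x j * -Real.cos (Real.pi / M i j)) ∧
          (IsEx M T → C (Art (rst M T)))) : C (Art M) :=
  aff_mem3 hC hE hF hcat hGL B M fun K hK hirr => (hM K hK hirr).imp_right fun h T hT h3 hI ht =>
    ⟨(h T hT h3 hI ht).1, (classify h3 hI ht (h T hT h3 hI ht).1).elim Or.inr fun hx => Or.inl ((h T hT h3 hI ht).2 hx)⟩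

end Pool.Agent.H52.CD
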