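import Pool.Agent.H52.CD.Cmp

/-!
# [CD] Assumptions of the classification and chains
-/

set_option autoImplicit false

namespace Pool.Agent.H52.CD

open Finset Pool.Agent.H52.DT

variable {B : Type} {M : CoxeterMatrix B} {T : Finset B}

/-- the assumptions of the classification -/
structure Hy (M : CoxeterMatrix B) (T : Finset B) : Prop extends Hyp M T where
  card : 3 ≤ T.card
  sph : ∀ i ∈ T, ∀ j ∈ T, ∀ k ∈ T, i ≠ j → j ≠ k → i ≠ k → (1 : ℝ) < 1 / M i j + 1 / M j k + 1 / M i k

/-- chains -/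
structure Chn (M : CoxeterMatrix B) (T : Finset B) (n : ℕ) (p : ℕ → B) : Prop where
  mem : ∀ x, x < n → p x ∈ T
  inj : ∀ x y, x < y → y < n → p x ≠ p y
  adj : ∀ x, x + 1 < n → 3 ≤ M (p x) (p (x + 1))

theorem Chn.ne {n : ℕ} {p : ℕ → B} (h : Chn M T n p) {x y : ℕ} (hx : x < n) (hy : y < n) (hxy : x ≠ y) : p x ≠ p y := by
  rcases Nat.lt_or_gt_of_ne hxy with h1 | h1
  · exact h.inj x y h1 hy
  · exact (h.inj y x h1 hx).symm

theorem Chn.eq {n : ℕ} {p : ℕ → B} (h : Chn M T n p) {x y : ℕ} (hx : x < n) (hy : y < n) (hxy : p x = p y) : x = y := by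
  by_contra h1
  exact h.ne hx hy h1 hxy

/-- the reversed chain -/
theorem Chn.rev {n : ℕ} {p : ℕ → B} (h : Chn M T n p) : Chn M T n fun x => p (n - 1 - x) where
  mem x hx := h.mem _ (by omega)
  inj x y hxy hy := h.ne (by omega) (by omega) (by omega)
  adj x hx := by
    have h1 := h.adj (n - 1 - (x + 1)) (by omega)
    have h2 : n - 1 - (x + 1) + 1 = n - 1 - x := by omega
    rw [h2] at h1
    rw [M.symmetric]
    exact h1

/-- the labels of a triple -/
theorem Hy.sph_nat (h : Hy M T) {i j k : B} (hi : i ∈ T) (hj : j ∈ T) (hk : k ∈ T) (hij : i ≠ j) (hjk : j ≠ k) (hik : i ≠ k) :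
    M i j * M j k * M i k < M j k * M i k + M i j * M i k + M i j * M j k := by
  have h1 := h.sph i hi j hj k hk hij hjk hik
  have a1 : (0 : ℝ) < M i j := by exact_mod_cast (by have := h.two i hi j hj hij; omega : 0 < M i j)
  have a2 : (0 : ℝ) < M j k := by exact_mod_cast (by have := h.two j hj k hk hjk; omega : 0 < M j k)
  have a3 : (0 : ℝ) < M i k := by exact_mod_cast (by have := h.two i hi k hk hik; omega : 0 < M i k)
  have h2 : (M i j : ℝ) * M j k * M i k < M j k * M i k + M i j * M i k + M i j * M j k := by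
    have h3 : (M i j : ℝ) * M j k * M i k * (1 / M i j + 1 / M j k + 1 / M i k) =
        M j k * M i k + M i j * M i k + M i j * M j k := by
      field_simp
    have h4 : (0 : ℝ) < M i j * M j k * M i k := by positivity
    nlinarith
  exact_mod_cast h2

/-- a triple with two labels at least three: the third label is two, one of them is three, the other at most five -/
theorem Hy.tri (h : Hy M T) {i j k : B} (hi : i ∈ T) (hj : j ∈ T) (hk : k ∈ T) (hij : i ≠ j) (hjk : j ≠ k) (hik : i ≠ k)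
    (h1 : 3 ≤ M i j) (h2 : 3 ≤ M j k) : M i k = 2 ∧ (M i j = 3 ∧ M j k ≤ 5 ∨ M j k = 3 ∧ M i j ≤ 5) := by
  have h3 := h.sph_nat hi hj hk hij hjk hik
  have h4 := h.two i hi k hk hik
  generalize M i j = a at *
  generalize M j k = b at *
  generalize M i k = c at *
  have hc : c = 2 := by
    by_contra hc
    have hc3 : 3 ≤ c := by omega
    obtain ⟨a, rfl⟩ := Nat.exists_eq_add_of_le h1
    obtain ⟨b, rfl⟩ := Nat.exists_eq_add_of_le h2
    obtain ⟨c, rfl⟩ := Nat.exists_eq_add_of_le hc3
    nlinarith [Nat.zero_le (a * b), Nat.zero_le (a * c), Nat.zero_le (b * c), Nat.zero_le (a * b * c)]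
  subst hc
  refine ⟨rfl, ?_⟩
  by_cases ha : a = 3
  · subst ha
    left
    refine ⟨rfl, ?_⟩
    omega
  · by_cases hb : b = 3
    · subst hb
      right
      refine ⟨rfl, ?_⟩
      omega
    · exfalso
      obtain ⟨a, rfl⟩ := Nat.exists_eq_add_of_le (show 4 ≤ a by omega)
      obtain ⟨b, rfl⟩ := Nat.exists_eq_add_of_le (show 4 ≤ b by omega)
      nlinarith [Nat.zero_le (a * b)]

end Pool.Agent.H52.CD
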