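import Pool.Agent.H52.CD.Hy

/-!
# [CD] Chains: chords, two special vertices, the longest chain

`Mods` are the models of the four infinite families of affine diagrams.
-/

set_option autoImplicit false

namespace Pool.Agent.H52.CD

open Finset Pool.Agent.H52.DT

/-- the models of the infinite families -/
structure Mods : Prop where
  mA : ∀ n, 3 ≤ n → ∃ v, Mdl n (Cl.tA.lab n) v
  mB : ∀ n, 4 ≤ n → ∃ v, Mdl n (Cl.tB.lab n) v
  mC : ∀ n, 4 ≤ n → ∃ v, Mdl n (Cl.tC.lab n) v
  mD : ∀ n, 5 ≤ n → ∃ v, Mdl n (Cl.tD.lab n) v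

variable {B : Type} {M : CoxeterMatrix B} {T : Finset B}

theorem emb_of (h : Hy M T) {n : ℕ} {L : ℕ → ℕ → ℕ} {f : ℕ → B} (mem : ∀ x, x < n → f x ∈ T)
    (inj : ∀ x y, x < y → y < n → f x ≠ f y) (lab : ∀ x y, x < y → y < n → L x y = 2 ∨ L x y ≤ M (f x) (f y)) :
    Emb M T n L f where
  mem := mem
  inj := inj
  lab x y hxy hy := by
    rcases lab x y hxy hy with h1 | h1
    · rw [h1]
      exact h.two _ (mem x (by omega)) _ (mem y hy) (inj x y hxy hy)
    · exact h1

theorem of_cl (h : Hy M T) (c : Cl) {n : ℕ} (hn : c.low ≤ n) (hm : ∃ v, Mdl n (c.lab n) v) {f : ℕ → B}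
    (he : Emb M T n (c.lab n) f) : IsCl M T := by
  obtain ⟨v, hv⟩ := hm
  have hc : 0 < c.low := by
    cases c <;> decide
  obtain ⟨e, h1⟩ := cmp h.toHyp hv he (by omega)
  exact ⟨c, n, e, hn, h1⟩

/-- circuits -/
theorem circ (hm : Mods) (h : Hy M T) {n : ℕ} (hn : 3 ≤ n) {f : ℕ → B} (mem : ∀ x, x < n → f x ∈ T)
    (inj : ∀ x y, x < y → y < n → f x ≠ f y) (adj : ∀ x, x + 1 < n → 3 ≤ M (f x) (f (x + 1)))
    (cl : 3 ≤ M (f 0) (f (n - 1))) : IsCl M T := by
  rcases Nat.eq_or_lt_of_le hn with h3 | h3
  · exfalso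
    subst h3
    have h1 := h.tri (mem 0 (by omega)) (mem 1 (by omega)) (mem 2 (by omega)) (inj 0 1 (by omega) (by omega))
      (inj 1 2 (by omega) (by omega)) (inj 0 2 (by omega) (by omega)) (adj 0 (by omega)) (adj 1 (by omega))
    have h2 : 3 ≤ M (f 0) (f 2) := cl
    omega
  · refine of_cl h .tA (n := n) h3 (hm.mA n hn) (f := f) (emb_of h mem inj fun x y hxy hy => ?_)
    change (if x + 1 = y ∨ (x = 0 ∧ y + 1 = n) then 3 else 2) = 2 ∨
      (if x + 1 = y ∨ (x = 0 ∧ y + 1 = n) then 3 else 2) ≤ M (f x) (f y)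
    split_ifs with h4
    · right
      rcases h4 with h4 | ⟨h4, h5⟩
      · subst h4
        exact adj x hy
      · subst h4
        have h6 : y = n - 1 := by omega
        rw [h6]
        exact cl
    · exact Or.inl rfl

/-- chords of chains -/
theorem chord (hm : Mods) (h : Hy M T) {n : ℕ} {p : ℕ → B} (hp : Chn M T n p) {x y : ℕ} (hxy : x + 2 ≤ y) (hy : y < n)
    (hM : 3 ≤ M (p x) (p y)) : IsCl M T := by
  refine circ hm h (n := y - x + 1) (by omega) (f := fun i => p (x + i)) (fun i hi => hp.mem _ (by omega))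
    (fun i j hij hj => hp.inj _ _ (by omega) (by omega)) (fun i hi => hp.adj (x + i) (by omega)) ?_
  have h1 : x + (y - x + 1 - 1) = y := by omega
  simp only [h1]
  exact hM

/-- a vertex with two neighbours on a chain -/
theorem two_nb (hm : Mods) (h : Hy M T) {n : ℕ} {p : ℕ → B} (hp : Chn M T n p) {z : B} (hz : z ∈ T)
    (hzp : ∀ x, x < n → p x ≠ z) {k l : ℕ} (hkl : k < l) (hl : l < n) (h1 : 3 ≤ M z (p k)) (h2 : 3 ≤ M z (p l)) :
    IsCl M T := by
  refine circ hm h (n := l - k + 2) (by omega) (f := fun i => if i = 0 then z else p (k + (i - 1)))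
    (fun i hi => ?_) (fun i j hij hj => ?_) (fun i hi => ?_) ?_
  · split_ifs with h3
    · exact hz
    · exact hp.mem _ (by omega)
  · rw [if_neg (show j ≠ 0 by omega)]
    split_ifs with h3
    · exact (hzp _ (by omega)).symm
    · exact hp.inj _ _ (by omega) (by omega)
  · rw [if_neg (show i + 1 ≠ 0 by omega)]
    split_ifs with h3
    · subst h3
      exact h1
    · have e1 : k + (i + 1 - 1) = k + (i - 1) + 1 := by omega
      rw [e1]
      exact hp.adj _ (by omega)
  · simp only
    rw [if_pos trivial, if_neg (show l - k + 2 - 1 ≠ 0 by omega)]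
    have e1 : k + (l - k + 2 - 1 - 1) = l := by omega
    rw [e1]
    exact h2

/-- two large labels on a chain -/
theorem two_lab (hm : Mods) (h : Hy M T) {n : ℕ} {p : ℕ → B} (hp : Chn M T n p) {i j : ℕ} (hij : i < j) (hj : j + 1 < n)
    (h1 : 4 ≤ M (p i) (p (i + 1))) (h2 : 4 ≤ M (p j) (p (j + 1))) : IsCl M T := by
  rcases Nat.eq_or_lt_of_le (show i + 1 ≤ j from hij) with h3 | h3
  · exfalso
    subst h3
    have h4 := h.tri (hp.mem i (by omega)) (hp.mem (i + 1) (by omega)) (hp.mem (i + 1 + 1) hj)
      (hp.ne (by omega) (by omega) (by omega)) (hp.ne (by omega) (by omega) (by omega))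
      (hp.ne (by omega) (by omega) (by omega)) (by omega) (by omega)
    omega
  · refine of_cl h .tC (n := j + 2 - i) (show 4 ≤ _ by omega) (hm.mC _ (by omega)) (f := fun x => p (i + x))
      (emb_of h (fun x hx => hp.mem _ (by omega)) (fun x y hxy hy => hp.inj _ _ (by omega) (by omega))
      fun x y hxy hy => ?_)
    change (if x + 1 = y then (if x = 0 ∨ y + 1 = j + 2 - i then 4 else 3) else 2) = 2 ∨
      (if x + 1 = y then (if x = 0 ∨ y + 1 = j + 2 - i then 4 else 3) else 2) ≤ M (p (i + x)) (p (i + y))
    split_ifs with h4 h5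
    · right
      subst h4
      rcases h5 with h5 | h5
      · subst h5
        exact h1
      · have e1 : i + x = j := by omega
        have e2 : i + (x + 1) = j + 1 := by omega
        rw [e1, e2]
        exact h2
    · right
      subst h4
      exact hp.adj (i + x) (by omega)
    · exact Or.inl rfl

/-- a branch with a large label -/
theorem br_lab0 (hm : Mods) (h : Hy M T) {n : ℕ} {p : ℕ → B} (hp : Chn M T n p) {z : B} (hz : z ∈ T)
    (hzp : ∀ x, x < n → p x ≠ z) {k : ℕ} (hk1 : 1 ≤ k) (hk2 : k + 1 < n) (h1 : 4 ≤ M z (p k)) : IsCl M T := by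
  refine of_cl h .tB (n := 4) (le_refl 4) (hm.mB 4 (by omega))
    (f := fun x => if x = 0 then z else if x = 1 then p k else if x = 2 then p (k - 1) else p (k + 1))
    (emb_of h (fun x hx => ?_) (fun x y hxy hy => ?_) fun x y hxy hy => ?_)
  · split_ifs
    · exact hz
    · exact hp.mem _ (by omega)
    · exact hp.mem _ (by omega)
    · exact hp.mem _ (by omega)
  · have hz' : ∀ x, x < n → z ≠ p x := fun x hx => (hzp x hx).symm
    interval_cases y <;> interval_cases x <;> simp
    · exact hz' _ (by omega)
    · exact hz' _ (by omega)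
    · exact hp.ne (by omega) (by omega) (by omega)
    · exact hz' _ (by omega)
    · exact hp.ne (by omega) (by omega) (by omega)
    · exact hp.ne (by omega) (by omega) (by omega)
  · have e1 : k - 1 + 1 = k := by omega
    have h2 := hp.adj (k - 1) (by omega)
    rw [e1] at h2
    have h3 := hp.adj k hk2
    interval_cases y <;> interval_cases x <;> simp [Cl.lab]
    · exact h1
    · rw [M.symmetric]
      exact h2
    · exact h3

/-- a branch vertex and a large label on the chain -/
theorem br_lab1 (hm : Mods) (h : Hy M T) {n : ℕ} {p : ℕ → B} (hp : Chn M T n p) {z : B} (hz : z ∈ T)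
    (hzp : ∀ x, x < n → p x ≠ z) {k j : ℕ} (hk1 : 1 ≤ k) (hkj : k ≤ j) (hj : j + 1 < n) (hzk : 3 ≤ M z (p k))
    (h1 : 4 ≤ M (p j) (p (j + 1))) : IsCl M T := by
  refine of_cl h .tB (n := j + 4 - k) (show 4 ≤ _ by omega) (hm.mB _ (by omega))
    (f := fun x => if x = j + 3 - k then z else p (j + 1 - x))
    (emb_of h (fun x hx => ?_) (fun x y hxy hy => ?_) fun x y hxy hy => ?_)
  · split_ifs
    · exact hz
    · exact hp.mem _ (by omega)
  · rw [if_neg (show x ≠ j + 3 - k by omega)]
    split_ifs with h2
    · exact hzp _ (by omega)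
    · exact hp.ne (by omega) (by omega) (by omega)
  · change (if y + 1 = j + 4 - k then (if x + 3 = j + 4 - k then 3 else 2) else
      if x + 1 = y then (if x = 0 then 4 else 3) else 2) = 2 ∨
      (if y + 1 = j + 4 - k then (if x + 3 = j + 4 - k then 3 else 2) else
      if x + 1 = y then (if x = 0 then 4 else 3) else 2) ≤
      M (if x = j + 3 - k then z else p (j + 1 - x)) (if y = j + 3 - k then z else p (j + 1 - y))
    rw [if_neg (show x ≠ j + 3 - k by omega)]
    by_cases h2 : y + 1 = j + 4 - k
    · rw [if_pos h2, if_pos (show y = j + 3 - k by omega)]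
      split_ifs with h3
      · right
        have e1 : j + 1 - x = k := by omega
        rw [e1, M.symmetric]
        exact hzk
      · exact Or.inl rfl
    · rw [if_neg h2, if_neg (show y ≠ j + 3 - k by omega)]
      by_cases h3 : x + 1 = y
      · rw [if_pos h3]
        right
        subst h3
        split_ifs with h4
        · subst h4
          rw [M.symmetric]
          exact h1
        · have h5 := hp.adj (j + 1 - (x + 1)) (by omega)
          have e1 : j + 1 - (x + 1) + 1 = j + 1 - x := by omega
          rw [e1] at h5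
          rw [M.symmetric]
          exact h5
      · rw [if_neg h3]
        exact Or.inl rfl

theorem br_lab2 (hm : Mods) (h : Hy M T) {n : ℕ} {p : ℕ → B} (hp : Chn M T n p) {z : B} (hz : z ∈ T)
    (hzp : ∀ x, x < n → p x ≠ z) {k j : ℕ} (hk1 : 1 ≤ k) (hk2 : k + 1 < n) (hj : j + 1 < n) (hzk : 3 ≤ M z (p k))
    (h1 : 4 ≤ M (p j) (p (j + 1))) : IsCl M T := by
  rcases Nat.lt_or_ge j k with h2 | h2
  · refine br_lab1 hm h hp.rev hz (fun x hx => hzp _ (by omega)) (k := n - 1 - k) (j := n - 2 - j) (by omega) (by omega)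
      (by omega) ?_ ?_
    · have e1 : n - 1 - (n - 1 - k) = k := by omega
      simp only [e1]
      exact hzk
    · have e1 : n - 1 - (n - 2 - j) = j + 1 := by omega
      have e2 : n - 1 - (n - 2 - j + 1) = j := by omega
      simp only [e1, e2]
      rw [M.symmetric]
      exact h1
  · exact br_lab1 hm h hp hz hzp hk1 h2 hj hzk h1

/-- two branches -/
theorem two_br (hm : Mods) (h : Hy M T) {n : ℕ} {p : ℕ → B} (hp : Chn M T n p) {z w : B} (hz : z ∈ T) (hw : w ∈ T)
    (hzw : z ≠ w) (hzp : ∀ x, x < n → p x ≠ z) (hwp : ∀ x, x < n → p x ≠ w) {k l : ℕ} (hk1 : 1 ≤ k) (hkl : k ≤ l)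
    (hl : l + 1 < n) (hzk : 3 ≤ M z (p k)) (hwl : 3 ≤ M w (p l)) : IsCl M T := by
  refine of_cl h .tD (n := l + 5 - k) (show 5 ≤ _ by omega) (hm.mD _ (by omega))
    (f := fun x => if x = l + 4 - k then w else if x = l + 3 - k then z else p (k - 1 + x))
    (emb_of h (fun x hx => ?_) (fun x y hxy hy => ?_) fun x y hxy hy => ?_)
  · split_ifs
    · exact hw
    · exact hz
    · exact hp.mem _ (by omega)
  · rw [if_neg (show x ≠ l + 4 - k by omega)]
    by_cases h2 : y = l + 4 - k
    · rw [if_pos h2]
      split_ifs with h3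
      · exact hzw
      · exact hwp _ (by omega)
    · rw [if_neg h2, if_neg (show x ≠ l + 3 - k by omega)]
      split_ifs with h3
      · exact hzp _ (by omega)
      · exact hp.ne (by omega) (by omega) (by omega)
  · change (if y + 1 = l + 5 - k then (if x + 4 = l + 5 - k then 3 else 2) else if y + 2 = l + 5 - k then
      (if x = 1 then 3 else 2) else if x + 1 = y then 3 else 2) = 2 ∨
      (if y + 1 = l + 5 - k then (if x + 4 = l + 5 - k then 3 else 2) else if y + 2 = l + 5 - k then
      (if x = 1 then 3 else 2) else if x + 1 = y then 3 else 2) ≤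
      M (if x = l + 4 - k then w else if x = l + 3 - k then z else p (k - 1 + x))
        (if y = l + 4 - k then w else if y = l + 3 - k then z else p (k - 1 + y))
    rw [if_neg (show x ≠ l + 4 - k by omega)]
    by_cases h2 : y + 1 = l + 5 - k
    · rw [if_pos h2, if_pos (show y = l + 4 - k by omega)]
      by_cases h3 : x + 4 = l + 5 - k
      · rw [if_pos h3, if_neg (show x ≠ l + 3 - k by omega)]
        right
        have e1 : k - 1 + x = l := by omega
        rw [e1, M.symmetric]
        exact hwl
      · rw [if_neg h3]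
        exact Or.inl rfl
    · rw [if_neg h2, if_neg (show y ≠ l + 4 - k by omega), if_neg (show x ≠ l + 3 - k by omega)]
      by_cases h3 : y + 2 = l + 5 - k
      · rw [if_pos h3, if_pos (show y = l + 3 - k by omega)]
        split_ifs with h4
        · right
          subst h4
          have e1 : k - 1 + 1 = k := by omega
          rw [e1, M.symmetric]
          exact hzk
        · exact Or.inl rfl
      · rw [if_neg h3, if_neg (show y ≠ l + 3 - k by omega)]
        split_ifs with h4
        · right
          subst h4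
          exact hp.adj (k - 1 + x) (by omega)
        · exact Or.inl rfl

/-- a branch of length two -/
theorem br_two (h : Hy M T) (hE : ∃ v, Mdl 7 Ex.tE6.lab v) {n : ℕ} {p : ℕ → B} (hp : Chn M T n p) {z w : B} (hz : z ∈ T)
    (hw : w ∈ T) (hzw : z ≠ w) (hzp : ∀ x, x < n → p x ≠ z) (hwp : ∀ x, x < n → p x ≠ w) {k : ℕ} (hk1 : 2 ≤ k)
    (hk2 : k + 2 < n) (hzk : 3 ≤ M z (p k)) (hzw3 : 3 ≤ M z w) : IsEx M T := by
  obtain ⟨v, hv⟩ := hE
  suffices h0 : IsTy M T 7 Ex.tE6.lab from ⟨.tE6, h0⟩
  refine cmp (f := fun x => if x = 0 then w else if x = 1 then z else p (k + x - 4)) h.toHyp hv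
    (emb_of h (fun x hx => ?_) (fun x y hxy hy => ?_) fun x y hxy hy => ?_) (by decide)
  · split_ifs
    · exact hw
    · exact hz
    · exact hp.mem _ (by omega)
  · rw [if_neg (show y ≠ 0 by omega)]
    split_ifs with h1 h2 h2
    · exact hzw.symm
    · exact (hwp _ (by omega)).symm
    · omega
    · exact (hzp _ (by omega)).symm
    · omega
    · exact hp.ne (by omega) (by omega) (by omega)
  · change (if x = 0 then (if y = 1 then 3 else 2) else if x = 1 then (if y = 4 then 3 else 2)
      else if x + 1 = y then 3 else 2) = 2 ∨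
      (if x = 0 then (if y = 1 then 3 else 2) else if x = 1 then (if y = 4 then 3 else 2)
      else if x + 1 = y then 3 else 2) ≤
      M (if x = 0 then w else if x = 1 then z else p (k + x - 4)) (if y = 0 then w else if y = 1 then z else p (k + y - 4))
    rw [if_neg (show y ≠ 0 by omega)]
    by_cases h1 : x = 0
    · rw [if_pos h1, if_pos h1]
      split_ifs with h2
      · right
        rw [M.symmetric]
        exact hzw3
      · exact Or.inl rfl
    · rw [if_neg h1, if_neg h1, if_neg (show y ≠ 1 by omega)]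
      by_cases h2 : x = 1
      · rw [if_pos h2, if_pos h2]
        split_ifs with h3
        · right
          subst h3
          exact hzk
        · exact Or.inl rfl
      · rw [if_neg h2, if_neg h2]
        split_ifs with h3
        · right
          subst h3
          have h4 := hp.adj (k + x - 4) (by omega)
          have e1 : k + x - 4 + 1 = k + (x + 1) - 4 := by omega
          rw [e1] at h4
          exact h4
        · exact Or.inl rfl

end Pool.Agent.H52.CD
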