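import Pool.Agent.H52.CD.Lng

/-!
# [CD] The longest chain and the classification

The end cases are hypotheses of `classify_of`.
-/

set_option autoImplicit false

namespace Pool.Agent.H52.CD

open Finset Pool.Agent.H52.DT

variable {B : Type} {M : CoxeterMatrix B} {T : Finset B}

theorem Chn.card_le {n : ℕ} {p : ℕ → B} (hp : Chn M T n p) : n ≤ T.card := by
  classical
  have h1 : (range n).image p ⊆ T := by
    intro b hb
    obtain ⟨x, hx, rfl⟩ := mem_image.1 hb
    exact hp.mem x (mem_range.1 hx)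
  have h2 := card_le_card h1
  rwa [card_image_of_injOn (fun x hx y hy hxy => hp.eq (by simpa using hx) (by simpa using hy) hxy), card_range] at h2

/-- a longest chain -/
theorem exists_longest (h : Hy M T) : ∃ (n : ℕ) (p : ℕ → B), Chn M T n p ∧ 1 ≤ n ∧ ∀ (m : ℕ) (q : ℕ → B), Chn M T m q → m ≤ n := by
  classical
  have hex : ∃ m, ∃ q : ℕ → B, Chn M T m q := by
    refine ⟨1, ?_⟩
    have h1 : T.Nonempty := card_pos.1 (by have := h.card; omega)
    obtain ⟨b, hb⟩ := h1
    exact ⟨fun _ => b, fun x hx => hb, fun x y hxy hy => by omega, fun x hx => by omega⟩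
  have hb : ∀ m, (∃ q : ℕ → B, Chn M T m q) → m ≤ T.card := fun m ⟨q, hq⟩ => hq.card_le
  let n := Nat.findGreatest (fun m => ∃ q : ℕ → B, Chn M T m q) T.card
  have h1 : (∃ q : ℕ → B, Chn M T 1 q) := by
    have h1 : T.Nonempty := card_pos.1 (by have := h.card; omega)
    obtain ⟨b, hb⟩ := h1
    exact ⟨fun _ => b, fun x hx => hb, fun x y hxy hy => by omega, fun x hx => by omega⟩
  have h2 : 1 ≤ n := Nat.le_findGreatest (hb 1 h1) h1
  have h3 : ∃ q : ℕ → B, Chn M T n q :=
    Nat.findGreatest_spec (P := fun m => ∃ q : ℕ → B, Chn M T m q) (m := 1) (hb 1 h1) h1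
  obtain ⟨p, hp⟩ := h3
  exact ⟨n, p, hp, h2, fun m q hq => Nat.le_findGreatest (hb m ⟨q, hq⟩) ⟨q, hq⟩⟩

/-- a new vertex before the chain -/
theorem Chn.cons {n : ℕ} {p : ℕ → B} (hp : Chn M T n p) {z : B} (hz : z ∈ T) (hzp : ∀ x, x < n → p x ≠ z)
    (hn : 1 ≤ n) (h1 : 3 ≤ M z (p 0)) : Chn M T (n + 1) fun x => if x = 0 then z else p (x - 1) where
  mem x hx := by
    split_ifs
    · exact hz
    · exact hp.mem _ (by omega)
  inj x y hxy hy := by
    rw [if_neg (show y ≠ 0 by omega)]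
    split_ifs with h2
    · exact (hzp _ (by omega)).symm
    · exact hp.ne (by omega) (by omega) (by omega)
  adj x hx := by
    rw [if_neg (show x + 1 ≠ 0 by omega)]
    split_ifs with h2
    · subst h2
      exact h1
    · have h3 := hp.adj (x - 1) (by omega)
      have e1 : x - 1 + 1 = x + 1 - 1 := by omega
      rwa [e1] at h3

/-- a part of a chain -/
theorem Chn.drop {n : ℕ} {p : ℕ → B} (hp : Chn M T n p) (k : ℕ) : Chn M T (n - k) fun x => p (k + x) where
  mem x hx := hp.mem _ (by omega)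
  inj x y hxy hy := hp.inj _ _ (by omega) (by omega)
  adj x hx := hp.adj (k + x) (by omega)

section

variable {n : ℕ} {p : ℕ → B} (hp : Chn M T n p) (hmax : ∀ (m : ℕ) (q : ℕ → B), Chn M T m q → m ≤ n)
include hp hmax

/-- a neighbour of the chain is joined with an interior vertex -/
theorem interior {z : B} (hz : z ∈ T) (hzp : ∀ x, x < n → p x ≠ z) {k : ℕ} (hk : k < n) (hzk : 3 ≤ M z (p k)) :
    1 ≤ k ∧ k + 1 < n := by
  constructor
  · by_contra h1
    have h2 : k = 0 := by omega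
    subst h2
    have h3 := hmax _ _ (hp.cons hz hzp (by omega) hzk)
    omega
  · by_contra h1
    have h2 : k = n - 1 := by omega
    have h3 := hmax _ _ (hp.rev.cons hz (fun x hx => hzp _ (by omega)) (by omega) (by
      have e1 : n - 1 - 0 = k := by omega
      simp only [e1]
      exact hzk))
    omega

/-- a neighbour of a neighbour -/
theorem interior2 {z w : B} (hz : z ∈ T) (hw : w ∈ T) (hzw : z ≠ w) (hzp : ∀ x, x < n → p x ≠ z)
    (hwp : ∀ x, x < n → p x ≠ w) {k : ℕ} (hk : k < n) (hzk : 3 ≤ M z (p k)) (hwz : 3 ≤ M w z) : 2 ≤ k ∧ k + 2 < n := by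
  have key : ∀ {q : ℕ → B}, Chn M T n q → (∀ x, x < n → q x ≠ z) → (∀ x, x < n → q x ≠ w) → ∀ {k : ℕ}, k < n →
      3 ≤ M z (q k) → 2 ≤ k := by
    intro q hq hzq hwq k hk hzk
    have h1 := (hq.drop k).cons hz (fun x hx => hzq _ (by omega)) (by omega) (by simpa using hzk)
    have h2 := h1.cons hw (fun x hx => by
      split_ifs with h3
      · exact hzw
      · exact hwq _ (by omega)) (by omega) (by simpa using hwz)
    have h3 := hmax _ _ h2
    omega
  refine ⟨key hp hzp hwp hk hzk, ?_⟩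
  have h1 := key hp.rev (fun x hx => hzp _ (by omega)) (fun x hx => hwp _ (by omega)) (k := n - 1 - k) (by omega) (by
    have e1 : n - 1 - (n - 1 - k) = k := by omega
    simp only [e1]
    exact hzk)
  omega

end

/-- the end cases -/
structure Ends (M : CoxeterMatrix B) (T : Finset B) : Prop where
  path3 : ∀ (n : ℕ) (p : ℕ → B), Chn M T n p → (∀ b ∈ T, ∃ x, x < n ∧ p x = b) →
    (∀ x y, x + 1 < y → y < n → M (p x) (p y) = 2) → (∀ x, x + 1 < n → M (p x) (p (x + 1)) = 3) → IsCl M T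
  path : ∀ (n : ℕ) (p : ℕ → B), Chn M T n p → (∀ b ∈ T, ∃ x, x < n ∧ p x = b) →
    (∀ x y, x + 1 < y → y < n → M (p x) (p y) = 2) → ∀ k, k + 1 < n → 4 ≤ M (p k) (p (k + 1)) →
    (∀ x, x + 1 < n → x ≠ k → M (p x) (p (x + 1)) = 3) → IsCl M T ∨ IsEx M T
  star : ∀ (n : ℕ) (p : ℕ → B), Chn M T n p → ∀ z : B, z ∈ T → (∀ x, x < n → p x ≠ z) →
    (∀ b ∈ T, b = z ∨ ∃ x, x < n ∧ p x = b) → (∀ x y, x + 1 < y → y < n → M (p x) (p y) = 2) →
    (∀ x, x + 1 < n → M (p x) (p (x + 1)) = 3) → ∀ k, 1 ≤ k → k + 1 < n → M z (p k) = 3 →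
    (∀ x, x < n → x ≠ k → M z (p x) = 2) → IsCl M T ∨ IsEx M T

/-- the classification, from the models and the end cases -/
theorem classify_of (hm : Mods) (hE : ∃ v, Mdl 7 Ex.tE6.lab v) (h : Hy M T) (he : Ends M T) : IsCl M T ∨ IsEx M T := by
  classical
  by_cases hcl : IsCl M T
  · exact Or.inl hcl
  obtain ⟨n, p, hp, hn, hmax⟩ := exists_longest h
  have hi : ∀ x y, x + 1 < y → y < n → M (p x) (p y) = 2 := by
    intro x y hxy hy
    by_contra h1
    have h2 := h.two _ (hp.mem x (by omega)) _ (hp.mem y hy) (hp.inj x y (by omega) hy)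
    exact hcl (chord hm h hp (x := x) (y := y) (by omega) hy (by omega))
  by_cases hT : ∀ b ∈ T, ∃ x, x < n ∧ p x = b
  · -- `T` is a chain
    by_cases h3 : ∀ x, x + 1 < n → M (p x) (p (x + 1)) = 3
    · exact Or.inl (he.path3 n p hp hT hi h3)
    push Not at h3
    obtain ⟨k, hk, hk3⟩ := h3
    have hk4 : 4 ≤ M (p k) (p (k + 1)) := by
      have := hp.adj k hk
      omega
    refine he.path n p hp hT hi k hk hk4 fun x hx hxk => ?_
    by_contra h4
    have h5 : 4 ≤ M (p x) (p (x + 1)) := by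
      have := hp.adj x hx
      omega
    rcases Nat.lt_or_gt_of_ne hxk with h6 | h6
    · exact hcl (two_lab hm h hp h6 hk h5 hk4)
    · exact hcl (two_lab hm h hp h6 hx hk4 h5)
  -- a vertex outside the chain
  have hL : ∃ z ∈ T, (∀ x, x < n → p x ≠ z) ∧ ∃ k, k < n ∧ 3 ≤ M z (p k) := by
    obtain ⟨i, hiL, j, hj, hjL, hij⟩ := h.irr ((range n).image p) (fun b hb => by
      obtain ⟨x, hx, rfl⟩ := mem_image.1 hb
      exact hp.mem x (mem_range.1 hx)) ⟨p 0, mem_image_of_mem p (mem_range.2 hn)⟩ (by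
      intro h1
      apply hT
      intro b hb
      rw [← h1] at hb
      obtain ⟨x, hx, hxb⟩ := mem_image.1 hb
      exact ⟨x, mem_range.1 hx, hxb⟩)
    obtain ⟨k, hk, rfl⟩ := mem_image.1 hiL
    have hk' := mem_range.1 hk
    refine ⟨j, hj, fun x hx hxj => hjL (hxj ▸ mem_image_of_mem p (mem_range.2 hx)), k, hk', ?_⟩
    have h1 : j ≠ p k := fun h1 => hjL (h1 ▸ mem_image_of_mem p hk)
    have h2 := h.two j hj (p k) (hp.mem k hk') h1
    have h3 : M j (p k) ≠ 2 := by
      rw [M.symmetric]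
      exact hij
    omega
  obtain ⟨z, hz, hzp, k, hk, hzk⟩ := hL
  obtain ⟨hk1, hk2⟩ := interior hp hmax hz hzp hk hzk
  have hzk3 : M z (p k) = 3 := by
    by_contra h1
    exact hcl (br_lab0 hm h hp hz hzp hk1 hk2 (by omega))
  have h3 : ∀ x, x + 1 < n → M (p x) (p (x + 1)) = 3 := by
    intro x hx
    by_contra h1
    have h2 := hp.adj x hx
    exact hcl (br_lab2 hm h hp hz hzp hk1 hk2 hx hzk (by omega))
  have hz2 : ∀ x, x < n → x ≠ k → M z (p x) = 2 := by
    intro x hx hxk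
    by_contra h1
    have h2 := h.two z hz (p x) (hp.mem x hx) (hzp x hx).symm
    rcases Nat.lt_or_gt_of_ne hxk with h4 | h4
    · exact hcl (two_nb hm h hp hz hzp h4 hk (by omega) hzk)
    · exact hcl (two_nb hm h hp hz hzp h4 hx hzk (by omega))
  by_cases hT2 : ∀ b ∈ T, b = z ∨ ∃ x, x < n ∧ p x = b
  · exact he.star n p hp z hz hzp hT2 hi h3 k hk1 hk2 hzk3 hz2
  -- a further vertex
  obtain ⟨i, hiL, w, hw, hwL, hij⟩ := h.irr (insert z ((range n).image p)) (fun b hb => by
    rcases mem_insert.1 hb with rfl | hb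
    · exact hz
    · obtain ⟨x, hx, rfl⟩ := mem_image.1 hb
      exact hp.mem x (mem_range.1 hx)) ⟨z, mem_insert_self _ _⟩ (by
    intro h1
    apply hT2
    intro b hb
    rw [← h1] at hb
    rcases mem_insert.1 hb with hb | hb
    · exact Or.inl hb
    · obtain ⟨x, hx, hxb⟩ := mem_image.1 hb
      exact Or.inr ⟨x, mem_range.1 hx, hxb⟩)
  have hwz : z ≠ w := fun h1 => hwL (h1 ▸ mem_insert_self _ _)
  have hwp : ∀ x, x < n → p x ≠ w := fun x hx hxw => hwL (mem_insert_of_mem (hxw ▸ mem_image_of_mem p (mem_range.2 hx)))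
  rcases mem_insert.1 hiL with rfl | hiL
  · -- joined with `z`
    have h4 := h.two i hz w hw hwz
    have h5 : 3 ≤ M w i := by
      rw [M.symmetric]
      omega
    obtain ⟨h6, h7⟩ := interior2 hp hmax hz hw hwz hzp hwp hk hzk h5
    exact Or.inr (br_two h hE hp hz hw hwz hzp hwp h6 h7 hzk (by omega))
  · obtain ⟨l, hl, rfl⟩ := mem_image.1 hiL
    have hl' := mem_range.1 hl
    have h4 := h.two w hw (p l) (hp.mem l hl') (hwp l hl').symm
    have h5 : M w (p l) ≠ 2 := by
      rw [M.symmetric]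
      exact hij
    have h6 : 3 ≤ M w (p l) := by omega
    obtain ⟨hl1, hl2⟩ := interior hp hmax hw hwp hl' h6
    rcases Nat.lt_or_ge l k with h7 | h7
    · exact Or.inl (two_br hm h hp hw hz hwz.symm hwp hzp hl1 h7.le hk2 h6 hzk)
    · exact Or.inl (two_br hm h hp hz hw hwz hzp hwp hk1 h7 hl2 hzk h6)

end Pool.Agent.H52.CD
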